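import Mathlib
import Pool.Agent.N817.PF.Main

/-!
# Irreducible representations with pro-`p` image and their restriction to one decomposition group

Let `p` be a prime number, `K` a number field, `S` a set of finite places of `K` and `v` a place such
that no cyclic extension of `K` of degree `p` which is unramified outside `S` is totally split at `v`.
Examples:

* `K` has only one place `v` above `p`, the class number of `K` is prime to `p` (the narrow class
  number, if `p = 2`) and `S = {v}` (an extension of degree `p` which is unramified outside `v` and
  totally split at `v` is unramified everywhere): `K = ℚ(ζ_p)` for a regular prime `p`, and all the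
  quadratic fields in which `p` is not split and whose class number is prime to `p`.
* `p = 2`, `K = ℚ`, `S = {2, q}` with a prime number `q` which is `3` or `5` modulo `8`, `v = 2`.
* If `(K, S, v)` is an example and `K'` is contained in a finite Galois extension of `K` of degree a
  power of `p` which is unramified outside `S`, then `(K', S', v')` is an example, where `S'` is the
  set of the places above `S` and `v'` is a place above `v`.

Let `V` be a continuous representation of `G_K` of dimension `n ≥ 1` over an algebraically closed field
`F` with `p ≠ 0` in `F`, defined over a Noetherian local ring `A` with finite residue field of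
characteristic `p` (for example `F` is an algebraic closure of `ℚ_p`, and `A` the ring of integers of
a finite extension of `ℚ_p`). Let `V` be irreducible, residually unipotent and unramified outside `S`.

Theorem. There are an open subgroup `L` of `G_K` of index `p ^ a` and a subspace `W` of `V`, stable
under `L`, such that `p ^ a * dim W = n` (so that `V` is induced from the representation `W` of `L`)
and such that the dimension of every subspace of `V` which is stable under a subgroup of finite index
of the decomposition group at `v` is divisible by `dim W`.

So if the restriction of `V` to the decomposition group at `v` potentially contains a line (for example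
if `V` is potentially ordinary at `v`), or a subspace of dimension prime to `n`, then `V` is induced
from a character of an extension of `K` of degree `n`, and `n` is a power of `p`. If `V` is moreover
de Rham at the places above `p`, then the character is algebraic and the conjecture of Fontaine and
Mazur holds for `V` by the theory of complex multiplication. If `n` is prime to `p` then `V` is
irreducible on all subgroups of finite index of the decomposition group at `v`. (The deductions from
the theory of complex multiplication are not part of the formal proof.)

Proof. By the theorem of Burnside the decomposition group at `v` is dense in the image of `G_K`, which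
is a pro-`p` group. So a subspace which is stable under a subgroup of finite index of it is stable
under a congruence subgroup `U`. Let `(L, W)` be a pair as in the theorem with `dim W` minimal. If `W`
were reducible on `U` then, by Clifford theory for the subgroups of index a power of `p`, the
representation `W` of `L` would be induced from a subgroup of index `p`. So all translates of `W` are
irreducible on `U`, and `V` is the sum of them.
-/

set_option autoImplicit false

namespace Pool.Agent.Results.MP_f68ac8_nt.DenseDecomposition

open NumberField Matrix IsLocalRing Module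

/-- the ring of all algebraic integers; its maximal ideals are the finite places of `ℚ̄` -/
abbrev ZBar : Type := 𝓞 (AlgebraicClosure ℚ)

/-- the absolute Galois group of `ℚ` -/
abbrev GQ : Type := Gal(AlgebraicClosure ℚ/ℚ)

/-- the absolute Galois group of `K`, with the Krull topology -/
noncomputable abbrev Gal' (K : IntermediateField ℚ (AlgebraicClosure ℚ)) : Subgroup GQ :=
  K.fixingSubgroup

/-- the decomposition group at `v` -/
def Decomposition (v : Ideal ZBar) : Set GQ := {g | ∀ x : ZBar, g • x ∈ v ↔ x ∈ v}

/-- the inertia group at `v` -/
def Inertia (v : Ideal ZBar) : Set GQ := {g | ∀ x : ZBar, g • x - x ∈ v}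

variable {K : IntermediateField ℚ (AlgebraicClosure ℚ)}

/-- No cyclic extension of `K` of degree `p` which is unramified at the finite places not in `S` is
totally split at `v`: a normal open subgroup of index `p` which contains the inertia groups at all
maximal ideals not in `S` does not contain the decomposition group at `v`. -/
def NoSplitExtension (p : ℕ) (K : IntermediateField ℚ (AlgebraicClosure ℚ)) (S : Set (Ideal ZBar))
    (v : Ideal ZBar) : Prop :=
  ∀ N : Subgroup (Gal' K), N.Normal → IsOpen (N : Set (Gal' K)) → N.index = p →
    (∀ w : Ideal ZBar, w.IsMaximal → w ∉ S → ∀ σ : Gal' K, (σ : GQ) ∈ Inertia w → σ ∈ N) →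
      ∃ σ : Gal' K, (σ : GQ) ∈ Decomposition v ∧ σ ∉ N

/-- The representation `ρ` is continuous, residually unipotent and unramified outside `S`. -/
structure Admissible {A : Type} [CommRing A] [IsLocalRing A] [TopologicalSpace A] {n : ℕ}
    (S : Set (Ideal ZBar)) (ρ : Gal' K →* GL (Fin n) A) : Prop where
  cont : ∀ i j, Continuous fun σ => (ρ σ : Matrix (Fin n) (Fin n) A) i j
  unipotent : ∀ σ, ∃ m : ℕ, ∀ i j,
    (((ρ σ : Matrix (Fin n) (Fin n) A) - 1) ^ m) i j ∈ maximalIdeal A
  unramified : ∀ w : Ideal ZBar, w.IsMaximal → w ∉ S →
    ∀ σ : Gal' K, (σ : GQ) ∈ Inertia w → ρ σ = 1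

/-- The subspace `W` of `V = F ^ n` is stable under the subgroup `L`. -/
def Stable {A : Type} [CommRing A] (F : Type) [Field F] [Algebra A F] {n : ℕ}
    (ρ : Gal' K →* GL (Fin n) A) (L : Subgroup (Gal' K)) (W : Submodule F (Fin n → F)) : Prop :=
  ∀ σ ∈ L, ∀ w ∈ W, ((ρ σ : Matrix (Fin n) (Fin n) A).map (algebraMap A F)) *ᵥ w ∈ W

/-- `V` is irreducible. -/
def Irreducible {A : Type} [CommRing A] (F : Type) [Field F] [Algebra A F] {n : ℕ}
    (ρ : Gal' K →* GL (Fin n) A) : Prop :=
  ∀ W : Submodule F (Fin n → F), Stable F ρ ⊤ W → W = ⊥ ∨ W = ⊤

/-- `X` is potentially stable under `D`: it is stable under a subgroup `D'` of the absolute Galois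
group of `K`, finitely many left cosets of which cover the elements of this group which are in `D`. -/
def PotentiallyStable {A : Type} [CommRing A] (F : Type) [Field F] [Algebra A F] {n : ℕ}
    (ρ : Gal' K →* GL (Fin n) A) (D : Set GQ) (X : Submodule F (Fin n → F)) : Prop :=
  ∃ (D' : Subgroup (Gal' K)) (R : Set (Gal' K)), R.Finite ∧
    (∀ δ : Gal' K, (δ : GQ) ∈ D → ∃ r ∈ R, r⁻¹ * δ ∈ D') ∧ Stable F ρ D' X

/-- The irreducible representation `V` is induced from the representation `W` of `L`: the subgroup `L`
is open, its index is a power of `p`, the subspace `W` of `V` is stable under `L`, and the dimension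
of `V` is the product of the index of `L` and the dimension of `W`. -/
structure InducedFrom (p : ℕ) {A : Type} [CommRing A] (F : Type) [Field F] [Algebra A F] {n : ℕ}
    (ρ : Gal' K →* GL (Fin n) A) (L : Subgroup (Gal' K)) (W : Submodule F (Fin n → F)) : Prop where
  isOpen : IsOpen (L : Set (Gal' K))
  index : ∃ a : ℕ, L.index = p ^ a
  stable : Stable F ρ L W
  dim : L.index * finrank F W = n

/-- **Subspaces which are potentially stable under the decomposition group.** -/
theorem result (p : ℕ) (hp : p.Prime) (K : IntermediateField ℚ (AlgebraicClosure ℚ))
    (S : Set (Ideal ZBar)) (v : Ideal ZBar) (hv : NoSplitExtension p K S v)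
    (A : Type) [CommRing A] [IsLocalRing A] [IsNoetherianRing A] [TopologicalSpace A]
    (hA : IsAdic (maximalIdeal A)) (hfin : Finite (ResidueField A)) (hpA : (p : A) ∈ maximalIdeal A)
    (F : Type) [Field F] [IsAlgClosed F] [Algebra A F] (hpF : (p : F) ≠ 0)
    (n : ℕ) (hn : n ≠ 0) (ρ : Gal' K →* GL (Fin n) A) (hρ : Admissible S ρ)
    (hirr : Irreducible F ρ) :
    ∃ (L : Subgroup (Gal' K)) (W : Submodule F (Fin n → F)), InducedFrom p F ρ L W ∧
      ∀ X : Submodule F (Fin n → F), PotentiallyStable F ρ (Decomposition v) X →
        finrank F W ∣ finrank F X := by
  obtain ⟨L, W, h1, h2, h3, h4, h5⟩ := Pool.Agent.N817.PF.main hp hA hpA hfin hpF hρ.cont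
    hρ.unipotent
    (I := {σ : Gal' K | ∃ w : Ideal ZBar, w.IsMaximal ∧ w ∉ S ∧ (σ : GQ) ∈ Inertia w})
    (fun σ hσ => by
      obtain ⟨w, hw, hwS, hσw⟩ := hσ
      exact hρ.unramified w hw hwS σ hσw)
    (D :=
      { carrier := {σ : Gal' K | (σ : GQ) ∈ Decomposition v}
        mul_mem' := by
          intro a b ha hb x
          show ((a : GQ) * (b : GQ)) • x ∈ v ↔ x ∈ v
          rw [mul_smul]
          exact (ha _).trans (hb x)
        one_mem' := by
          intro x
          show (1 : GQ) • x ∈ v ↔ x ∈ v
          rw [one_smul]
        inv_mem' := by
          intro a ha x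
          show (a : GQ)⁻¹ • x ∈ v ↔ x ∈ v
          have := ha ((a : GQ)⁻¹ • x)
          rw [smul_inv_smul] at this
          exact this.symm })
    (fun N hN hNo hNi hNI => by
      obtain ⟨σ, h1, h2⟩ := hv N hN hNo hNi (fun w hw hwS σ hσ => hNI σ ⟨w, hw, hwS, hσ⟩)
      exact ⟨σ, h1, h2⟩)
    (fun W hW => hirr W fun σ _ w hw => hW σ w hw) hn
  refine ⟨L, W, ⟨h1, h2, h3, h4⟩, ?_⟩
  rintro X ⟨D', R, hRf, hR, hX⟩
  exact h5 D' R X hRf (fun δ hδ => hR δ hδ) hX

end Pool.Agent.Results.MP_f68ac8_nt.DenseDecomposition
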